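import Mathlib
import Pool.Agent.W608.Rank4

set_option autoImplicit false

/-!
# Every system with multiplicities at most `m` and degree of order `m ^ 3` is non-special

General points of the complex projective plane with arbitrary multiplicities `w i ≤ m`, `m ≥ 2`.
In every degree `d ≥ D = (m + 1) (2 m ^ 2 + 6 m + 5)` the linear system has the expected
dimension; if the number `∑ (w i + 1).choose 2` of conditions is at least `(D + 2).choose 2`, this
holds in every degree `d` whatsoever.
-/

namespace Pool.Agent.Results.MP_6b2d39_ag.AllMultiplicitiesLargeDegree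

theorem result (n m : ℕ) (hm : 2 ≤ m) (w : Fin n → ℕ) (hw : ∀ i, w i ≤ m) :
    ∃ F : MvPolynomial (Fin n × Fin 2) ℂ, F ≠ 0 ∧
      ∀ P : Fin n → Fin 2 → ℂ,
        MvPolynomial.eval (fun ij : Fin n × Fin 2 => P ij.1 ij.2) F ≠ 0 →
        ∀ d : ℕ,
          ((m + 1) * (2 * m ^ 2 + 6 * m + 5) ≤ d ∨
            ((m + 1) * (2 * m ^ 2 + 6 * m + 5) + 2).choose 2 ≤ ∑ i, (w i + 1).choose 2) →
          Module.finrank ℂ
            ↥(MvPolynomial.homogeneousSubmodule (Fin 3) ℂ d ⊓
              Submodule.restrictScalars ℂ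
                (⨅ i : Fin n,
                  (Ideal.span
                    ({MvPolynomial.X 0 - MvPolynomial.C (P i 0) * MvPolynomial.X 2,
                      MvPolynomial.X 1 - MvPolynomial.C (P i 1) * MvPolynomial.X 2} :
                      Set (MvPolynomial (Fin 3) ℂ))) ^ (w i)))
          = Nat.choose (d + 2) 2 - ∑ i, Nat.choose (w i + 1) 2 := by
  obtain ⟨F, hF, hF'⟩ := W608.exp_large ℂ m hm w hw ((m + 1) * (2 * m ^ 2 + 6 * m + 5))
    (le_of_eq (by ring))
  refine ⟨F.map (algebraMap ℚ ℂ), H932R3.map_ne_zero_of hF, fun P hP d h1 => ?_⟩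
  rw [MvPolynomial.eval_map] at hP
  exact hF' P hP d h1

end Pool.Agent.Results.MP_6b2d39_ag.AllMultiplicitiesLargeDegree
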